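import Pool.Agent.Helper32K9.RD.St

/-!
# Large values of one dyadic piece on a clustered set
-/

set_option autoImplicit false

namespace Pool.Agent.Helper32K9.RD

open Complex Metric MeasureTheory Set Filter Topology DH31
open Pool.Agent.W170.MV (C1 cells)

lemma KN_le {D δ T : ℝ} (hD : 1 ≤ D) (hδ : 0 ≤ δ) (hδ1 : δ ≤ 1) (hT : 1 ≤ Real.log T) :
    (KN D δ T : ℝ) ≤ (D + 4) * Real.log T := by
  unfold KN
  push_cast
  have h0 : 0 ≤ (1 / 2 + D - δ) / 2 := by linarith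
  have h1 := (Nat.ceil_lt_add_one (show 0 ≤ (1 / 2 + D - δ) / 2 * Real.log T by positivity)).le
  nlinarith

lemma two_le_KN {D δ T : ℝ} : 2 ≤ KN D δ T := by
  unfold KN; omega

lemma blk_le_sq {x : ℝ} (h : 1 ≤ x) : x ≤ x ^ 2 := by nlinarith

lemma blk_aux {κ x : ℝ} (hκ : 0 ≤ κ) (hx : x ≤ 1) : (1 + 2 * κ) * x ≤ 2 * κ + x := by nlinarith

set_option maxHeartbeats 2000000 in
theorem blk (hLV : S_LV) : S_BLK := by
  intro κ D δ η hκ hκ1 hD hδ hδ1 hη hη1
  have hD1 : 1 ≤ D := by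
    refine le_trans ?_ hD
    rw [le_div_iff₀ (by positivity)]
    nlinarith
  have hD0 : 0 < D := by linarith
  have hC1 : 0 < C1 := Pool.Agent.W170.MV.C1_pos
  -- bound for the power
  set m0 : ℕ := ⌈2 / η⌉₊ + 1 with hm0
  have hm02 : 2 ≤ m0 := by
    have : 1 ≤ ⌈2 / η⌉₊ := Nat.one_le_ceil_iff.2 (by positivity)
    omega
  have hm0r : (1 : ℝ) ≤ m0 := by
    have : 1 ≤ m0 := by omega
    exact_mod_cast this
  obtain ⟨Cd, hCd1, hCd⟩ := div_bound (ε := κ / (2 * m0)) (by positivity)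
  have ev1 := ev_log ((4 * (D + 4) ^ 2) ^ (2 * m0)) κ (4 * m0) hκ
  have ev3 := ev_log ((m0 + 3 : ℝ) ^ 3) κ 3 hκ
  have ev5 : ∀ᶠ T : ℝ in atTop, 4 ≤ T ^ (η / 2) :=
    (tendsto_rpow_atTop (show 0 < η / 2 by positivity)).eventually_ge_atTop _
  have ev6 : ∀ᶠ T : ℝ in atTop, 1 ≤ Real.log T := Real.tendsto_log_atTop.eventually_ge_atTop _
  obtain ⟨T0, hT0⟩ := Filter.eventually_atTop.1 ((ev1.and ev3).and
    ((ev5.and ev6).and (eventually_ge_atTop (1 : ℝ))))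
  set P : ℝ := 2 ^ m0 with hP
  have hP1 : 1 ≤ P := one_le_pow₀ (by norm_num)
  have hP0 : 0 < P := by linarith
  set E : ℝ := (Cd ^ (2 * m0) * P) ^ 2 with hE
  have hE0 : 0 < E := by rw [hE]; positivity
  refine ⟨84 * C1 * (2 * P ^ 2) * E, max T0 1, by positivity, le_max_right _ _, ?_⟩
  intro T hT σ hσ1 hσ2 H hH k j S hS hsep hlarge
  obtain ⟨⟨e1, e3⟩, ⟨⟨e5, e6⟩, e7⟩⟩ := hT0 T ((le_max_left _ _).trans hT)
  set X := XN η T with hX
  set K := KN D δ T with hK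
  set Z := ZN κ T with hZ
  have hTpos : 0 < T := by linarith
  have hH1 : 1 ≤ H := le_trans (by rw [Real.one_le_sqrt]; exact e7) hH
  have hH0 : 0 < H := by linarith
  have hQ0 : 0 ≤ QQ T H σ := by unfold QQ; positivity
  rcases S.eq_empty_or_nonempty with rfl | ⟨n0, hn0⟩
  · simp only [Finset.card_empty, Nat.cast_zero]
    positivity
  have hK1 : 1 ≤ K := by have := two_le_KN (D := D) (δ := δ) (T := T); omega
  have hK1r : (1 : ℝ) ≤ K := by exact_mod_cast hK1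
  have hKle : (K : ℝ) ≤ (D + 4) * Real.log T := KN_le hD1 hδ.le (by linarith) e6
  set V : ℝ := 1 / (4 * (K : ℝ) ^ 2) with hV
  have hVpos : 0 < V := by positivity
  -- there is a nonzero coefficient
  have hne : ∃ n, bk D σ k X Z j n ≠ 0 := by
    by_contra hcon
    push Not at hcon
    have h1 := hlarge n0 hn0
    unfold dp at h1
    simp only [hcon, zero_mul, Finset.sum_const_zero, norm_zero] at h1
    linarith
  obtain ⟨n1, hn1⟩ := hne
  have hn1s := bk_support n1 hn1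
  have hn1i : X < n1 ∧ n1 ≤ Z := by
    rw [bk_apply] at hn1
    by_contra hcon
    apply hn1
    rw [if_neg]
    rw [Finset.mem_Ioc]
    tauto
  set N : ℕ := 2 ^ j with hN
  have hY : 2 ^ (j + 1) = 2 * N := by rw [pow_succ, hN]; ring
  have hN1 : 1 ≤ N := Nat.one_le_two_pow
  have hNr : (1 : ℝ) ≤ N := by exact_mod_cast hN1
  -- N is large
  have hNlarge : T ^ (η / 2) ≤ N := by
    have h1 : T ^ η < X + 1 := by rw [hX]; exact Nat.lt_floor_add_one _
    have h2 : (X : ℝ) + 1 ≤ 2 * N := by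
      have : X + 1 ≤ 2 * N := by omega
      exact_mod_cast this
    have h3 : T ^ η = T ^ (η / 2) * T ^ (η / 2) := by
      rw [← Real.rpow_add hTpos]; congr 1; ring
    have h4 : 4 * T ^ (η / 2) ≤ T ^ (η / 2) * T ^ (η / 2) := by gcongr
    have h5 : 0 < T ^ (η / 2) := by positivity
    linarith
  have hlogN : η / 2 * Real.log T ≤ Real.log N := by
    rw [← Real.log_rpow hTpos]
    exact Real.log_le_log (by positivity) hNlarge
  have hlogNpos : 0 < Real.log N := lt_of_lt_of_le (by positivity) hlogN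
  have hNZ : (N : ℝ) ≤ T ^ (1 / 2 + κ) := by
    have h1 : N ≤ Z := hn1s.1.trans hn1i.2
    have h2 : (Z : ℝ) ≤ T ^ (1 / 2 + κ) := by
      rw [hZ]; exact Nat.floor_le (by positivity)
    exact le_trans (by exact_mod_cast h1) h2
  -- the power
  have hpow : ∃ m : ℕ, m ≤ m0 ∧ T ^ (2 / 3 : ℝ) ≤ (N : ℝ) ^ m ∧ (N : ℝ) ^ m ≤ T ^ (1 + 2 * κ) := by
    rcases le_or_gt (T ^ (1 / 3 : ℝ)) N with h | h
    · refine ⟨2, hm02, ?_, ?_⟩
      · calc T ^ (2 / 3 : ℝ) = (T ^ (1 / 3 : ℝ)) ^ 2 := by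
              rw [← Real.rpow_natCast, ← Real.rpow_mul hTpos.le]; norm_num
          _ ≤ (N : ℝ) ^ 2 := by gcongr
      · calc (N : ℝ) ^ 2 ≤ (T ^ (1 / 2 + κ)) ^ 2 := by gcongr
          _ = T ^ (1 + 2 * κ) := by
              rw [← Real.rpow_natCast, ← Real.rpow_mul hTpos.le]; congr 1; push_cast; ring
    · set m : ℕ := ⌊Real.log T / Real.log N⌋₊ with hm
      have hm1 : (m : ℝ) ≤ Real.log T / Real.log N := Nat.floor_le (by positivity)
      have hm2 : Real.log T / Real.log N ≤ m + 1 := (Nat.lt_floor_add_one _).le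
      have hNm2 : (N : ℝ) ^ m ≤ T := by
        rw [le_div_iff₀ hlogNpos] at hm1
        calc (N : ℝ) ^ m = Real.exp (m * Real.log N) := by
              rw [Real.exp_nat_mul, Real.exp_log (by linarith)]
          _ ≤ Real.exp (Real.log T) := Real.exp_le_exp.2 hm1
          _ = T := Real.exp_log hTpos
      have hNm1 : T ≤ (N : ℝ) ^ m * N := by
        rw [div_le_iff₀ hlogNpos] at hm2
        calc T = Real.exp (Real.log T) := (Real.exp_log hTpos).symm
          _ ≤ Real.exp ((m + 1 : ℝ) * Real.log N) := Real.exp_le_exp.2 hm2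
          _ = (N : ℝ) ^ m * N := by
              rw [add_mul, one_mul, Real.exp_add, Real.exp_nat_mul, Real.exp_log (by linarith)]
      refine ⟨m, ?_, ?_, ?_⟩
      · have h1 : Real.log T / Real.log N ≤ 2 / η := by
          rw [div_le_div_iff₀ hlogNpos hη]
          linarith
        have h2 : m ≤ ⌈Real.log T / Real.log N⌉₊ := Nat.floor_le_ceil _
        have h3 := Nat.ceil_le_ceil h1
        omega
      · have h3 : T = T ^ (2 / 3 : ℝ) * T ^ (1 / 3 : ℝ) := by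
          rw [← Real.rpow_add hTpos]; norm_num
        have h4 : T ^ (2 / 3 : ℝ) * T ^ (1 / 3 : ℝ) ≤ (N : ℝ) ^ m * T ^ (1 / 3 : ℝ) := by
          rw [← h3]
          exact hNm1.trans (by gcongr)
        exact le_of_mul_le_mul_right h4 (by positivity)
      · refine hNm2.trans ?_
        calc T = T ^ (1 : ℝ) := (Real.rpow_one T).symm
          _ ≤ _ := Real.rpow_le_rpow_of_exponent_le e7 (by linarith)
  obtain ⟨m, hmm0, hW1, hW2⟩ := hpow
  set W : ℝ := (N : ℝ) ^ m with hW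
  have hW0 : 0 < W := by positivity
  have hW01 : 1 ≤ W := one_le_pow₀ hNr
  -- size of Y^m
  set Ym : ℝ := (((2 * N) ^ m : ℕ) : ℝ) with hYm
  have h2m : (2 : ℝ) ^ m ≤ P := pow_le_pow_right₀ (by norm_num) hmm0
  have hYm_le : Ym ≤ P * W := by
    have h1 : Ym = 2 ^ m * W := by rw [hYm]; push_cast; rw [mul_pow]
    rw [h1]; gcongr
  have hYm1 : 1 ≤ Ym := by
    have : 1 ≤ (2 * N) ^ m := Nat.one_le_pow _ _ (by omega)
    rw [hYm]; exact_mod_cast this
  have hYm0 : 0 < Ym := by linarith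
  have hYm2 : Ym ≤ P * T ^ (1 + 2 * κ) := hYm_le.trans (by gcongr)
  have hlogYm : Real.log Ym ≤ (m0 + 2) * Real.log T := by
    calc Real.log Ym ≤ Real.log (P * T ^ (1 + 2 * κ)) := Real.log_le_log (by linarith) hYm2
      _ = m0 * Real.log 2 + (1 + 2 * κ) * Real.log T := by
          rw [Real.log_mul (by positivity) (by positivity), hP, Real.log_pow, Real.log_rpow hTpos]
      _ ≤ (m0 + 2) * Real.log T := by
          have h1 : Real.log 2 ≤ 1 := by have := Real.log_two_lt_d9; linarith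
          have h2 : (m0 : ℝ) * Real.log 2 ≤ m0 * Real.log T :=
            mul_le_mul_of_nonneg_left (h1.trans e6) (by positivity)
          have h3 : (1 + 2 * κ) * Real.log T ≤ 2 * Real.log T :=
            mul_le_mul_of_nonneg_right (by linarith) (by linarith)
          linarith
  have hlogYm0 : 0 ≤ Real.log Ym := Real.log_nonneg hYm1
  have hP3 : (1 + Real.log Ym) ^ 3 ≤ T ^ κ := by
    refine le_trans ?_ e3
    rw [← mul_pow]
    have : 1 + Real.log Ym ≤ (m0 + 3) * Real.log T := by linarith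
    gcongr
  -- the divisor bound
  set B : ℝ := Cd ^ (2 * m0) * Ym ^ κ with hB
  have hB0 : 0 < B := by positivity
  have hBn : ∀ n ∈ Finset.Icc 1 ((2 * N) ^ m), (n.divisors.card : ℝ) ^ (2 * m) ≤ B := by
    intro n hn
    rw [Finset.mem_Icc] at hn
    have hnr : (1 : ℝ) ≤ n := by exact_mod_cast hn.1
    have h1 := hCd n hn.1
    have hx1 : 1 ≤ Cd * (n : ℝ) ^ (κ / (2 * m0)) := by
      have : 1 ≤ (n : ℝ) ^ (κ / (2 * m0)) := Real.one_le_rpow hnr (by positivity)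
      exact one_le_mul_of_one_le_of_one_le hCd1 this
    calc (n.divisors.card : ℝ) ^ (2 * m) ≤ (Cd * (n : ℝ) ^ (κ / (2 * m0))) ^ (2 * m) := by gcongr
      _ ≤ (Cd * (n : ℝ) ^ (κ / (2 * m0))) ^ (2 * m0) := pow_le_pow_right₀ hx1 (by omega)
      _ = Cd ^ (2 * m0) * (n : ℝ) ^ κ := by
          rw [mul_pow, ← Real.rpow_natCast ((n : ℝ) ^ (κ / (2 * m0))), ← Real.rpow_mul (by positivity)]
          congr 2
          push_cast
          field_simp
      _ ≤ B := by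
          rw [hB]
          have : (n : ℝ) ≤ Ym := by rw [hYm]; exact_mod_cast hn.2
          gcongr
  have hB2 : B ^ 2 ≤ E * T ^ (4 * κ) := by
    have h5 : Ym ^ κ ≤ P * T ^ (2 * κ) := by
      calc Ym ^ κ ≤ (P * T ^ (1 + 2 * κ)) ^ κ := by gcongr
        _ = P ^ κ * T ^ ((1 + 2 * κ) * κ) := by
            rw [Real.mul_rpow (by positivity) (by positivity), ← Real.rpow_mul hTpos.le]
        _ ≤ P * T ^ (2 * κ) := by
            have h6 : P ^ κ ≤ P := by
              calc P ^ κ ≤ P ^ (1 : ℝ) := Real.rpow_le_rpow_of_exponent_le hP1 (by linarith)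
                _ = _ := Real.rpow_one _
            have h7 : T ^ ((1 + 2 * κ) * κ) ≤ T ^ (2 * κ) :=
              Real.rpow_le_rpow_of_exponent_le e7
                (mul_le_mul_of_nonneg_right (by linarith) hκ.le)
            gcongr
    calc B ^ 2 ≤ (Cd ^ (2 * m0) * (P * T ^ (2 * κ))) ^ 2 := by rw [hB]; gcongr
      _ = E * (T ^ (2 * κ)) ^ 2 := by rw [hE]; ring
      _ = E * T ^ (4 * κ) := by
          rw [← Real.rpow_natCast (T ^ (2 * κ)), ← Real.rpow_mul hTpos.le]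
          congr 2; push_cast; ring
  -- apply the large values estimate
  have hlv := hLV (bk D σ k X Z j) N (2 * N) m σ V B (2 * H) hN1 (by linarith) hVpos.le
    (fun n hn => by
      have := bk_support n hn
      rw [hY] at this
      exact this)
    (bk_norm_le hD0 hσ2) hBn hB0 (by omega) (by linarith) S
    (fun t ht => by
      refine ⟨(hS t ht).1, (hS t ht).2.trans ?_⟩
      have h1 : T ≤ H ^ 2 := by
        rw [← Real.sqrt_le_sqrt_iff (by positivity), Real.sqrt_sq hH0.le]; exact hH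
      have h2 : (2 * H) ^ 2 = 4 * H ^ 2 := by ring
      linarith)
    hsep
    (fun n hn => by
      have := hlarge n hn
      rw [hY] at this
      exact this)
  rw [← hYm] at hlv
  have hWeq : ((N ^ m : ℕ) : ℝ) = W := by rw [hW]; push_cast; rfl
  rw [hWeq] at hlv
  set c : ℝ := (cells (2 * H) S : ℝ) with hc
  have hc0 : 0 ≤ c := by rw [hc]; positivity
  -- V
  have hVm : 1 ≤ T ^ κ * V ^ (2 * m) := by
    have h1 : 1 / V = 4 * (K : ℝ) ^ 2 := by rw [hV]; field_simp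
    have h2 : (1 / V) ^ (2 * m) ≤ T ^ κ := by
      rw [h1]
      have h0 : 1 ≤ 4 * (K : ℝ) ^ 2 := by
        have a2 : (1 : ℝ) ≤ (K : ℝ) ^ 2 := one_le_pow₀ hK1r
        linarith
      have h3 : (4 * (K : ℝ) ^ 2) ^ (2 * m) ≤ (4 * (K : ℝ) ^ 2) ^ (2 * m0) :=
        pow_le_pow_right₀ h0 (by omega)
      refine h3.trans (le_trans ?_ e1)
      calc (4 * (K : ℝ) ^ 2) ^ (2 * m0) ≤ (4 * ((D + 4) * Real.log T) ^ 2) ^ (2 * m0) := by gcongr
        _ = (4 * (D + 4) ^ 2) ^ (2 * m0) * Real.log T ^ (4 * m0) := by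
            rw [mul_pow (D + 4), ← mul_assoc, mul_pow, ← pow_mul]
            congr 2
            ring
    rw [one_div, inv_pow] at h2
    have h3 : 0 < V ^ (2 * m) := by positivity
    rwa [inv_le_iff_one_le_mul₀ h3] at h2
  have hTκ : 1 ≤ T ^ (2 * κ) := Real.one_le_rpow e7 (by positivity)
  -- the powers of `W`
  have w1 : W ^ (2 - 2 * σ) ≤ T ^ (2 * κ) * T ^ (2 - 2 * σ) := by
    calc W ^ (2 - 2 * σ) ≤ (T ^ (1 + 2 * κ)) ^ (2 - 2 * σ) :=
          Real.rpow_le_rpow hW0.le hW2 (by linarith)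
      _ = T ^ ((1 + 2 * κ) * (2 - 2 * σ)) := by rw [← Real.rpow_mul hTpos.le]
      _ ≤ T ^ (2 * κ + (2 - 2 * σ)) :=
          Real.rpow_le_rpow_of_exponent_le e7 (blk_aux hκ.le (by linarith))
      _ = _ := Real.rpow_add hTpos _ _
  have w2 : W ^ (1 - 2 * σ) ≤ T ^ (2 * κ) * T ^ (2 / 3 * (1 - 2 * σ)) := by
    calc W ^ (1 - 2 * σ) ≤ (T ^ (2 / 3 : ℝ)) ^ (1 - 2 * σ) :=
          Real.rpow_le_rpow_of_nonpos (by positivity) hW1 (by linarith)
      _ = T ^ (2 / 3 * (1 - 2 * σ)) := by rw [← Real.rpow_mul hTpos.le]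
      _ = 1 * T ^ (2 / 3 * (1 - 2 * σ)) := (one_mul _).symm
      _ ≤ _ := by gcongr
  have w3 : W ^ (3 / 2 - 2 * σ) ≤ T ^ (2 * κ) * (T ^ (1 - 4 * σ / 3) + T ^ (3 / 2 - 2 * σ)) := by
    have p1 : 0 ≤ T ^ (1 - 4 * σ / 3) := by positivity
    have p2 : 0 ≤ T ^ (3 / 2 - 2 * σ) := by positivity
    rcases le_total 0 (3 / 2 - 2 * σ) with h | h
    · calc W ^ (3 / 2 - 2 * σ) ≤ (T ^ (1 + 2 * κ)) ^ (3 / 2 - 2 * σ) :=
            Real.rpow_le_rpow hW0.le hW2 h
        _ = T ^ ((1 + 2 * κ) * (3 / 2 - 2 * σ)) := by rw [← Real.rpow_mul hTpos.le]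
        _ ≤ T ^ (2 * κ + (3 / 2 - 2 * σ)) :=
            Real.rpow_le_rpow_of_exponent_le e7 (blk_aux hκ.le (by linarith))
        _ = T ^ (2 * κ) * T ^ (3 / 2 - 2 * σ) := Real.rpow_add hTpos _ _
        _ ≤ _ := by gcongr; linarith
    · calc W ^ (3 / 2 - 2 * σ) ≤ (T ^ (2 / 3 : ℝ)) ^ (3 / 2 - 2 * σ) :=
            Real.rpow_le_rpow_of_nonpos (by positivity) hW1 h
        _ = T ^ (1 - 4 * σ / 3) := by rw [← Real.rpow_mul hTpos.le]; congr 1; ring
        _ = 1 * T ^ (1 - 4 * σ / 3) := (one_mul _).symm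
        _ ≤ _ := by gcongr; linarith
  -- the three terms
  have hWa : W ^ (-(2 * σ)) * W ^ 2 = W ^ (2 - 2 * σ) := by
    rw [← Real.rpow_natCast W 2, ← Real.rpow_add hW0]; congr 1; push_cast; ring
  have hWb : W ^ (-(2 * σ)) * W = W ^ (1 - 2 * σ) := by
    rw [← Real.rpow_add_one hW0.ne']; congr 1; ring
  have hWc : W ^ (1 - 2 * σ) * Real.sqrt W = W ^ (3 / 2 - 2 * σ) := by
    rw [Real.sqrt_eq_rpow, ← Real.rpow_add hW0]; congr 1; ring
  have hWs0 : 0 < W ^ (-(2 * σ)) := by positivity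
  have t1 : Ym * Ym * W ^ (-(2 * σ)) ≤ P ^ 2 * (T ^ (2 * κ) * T ^ (2 - 2 * σ)) := by
    calc Ym * Ym * W ^ (-(2 * σ)) ≤ (P * W) * (P * W) * W ^ (-(2 * σ)) := by gcongr
      _ = P ^ 2 * W ^ (2 - 2 * σ) := by rw [← hWa]; ring
      _ ≤ _ := by gcongr
  have t2 : Ym * (2 * H) * W ^ (-(2 * σ)) ≤
      2 * P ^ 2 * (T ^ (2 * κ) * (T ^ (2 / 3 * (1 - 2 * σ)) * H)) := by
    calc Ym * (2 * H) * W ^ (-(2 * σ)) ≤ (P * W) * (2 * H) * W ^ (-(2 * σ)) := by gcongr
      _ = 2 * P * (W ^ (1 - 2 * σ) * H) := by rw [← hWb]; ring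
      _ ≤ 2 * P * (T ^ (2 * κ) * T ^ (2 / 3 * (1 - 2 * σ)) * H) := by gcongr
      _ = 2 * P * (T ^ (2 * κ) * (T ^ (2 / 3 * (1 - 2 * σ)) * H)) := by ring
      _ ≤ _ := by
        have : P ≤ P ^ 2 := blk_le_sq hP1
        gcongr
  have t3 : Ym * Real.sqrt (Ym * (2 * H)) * W ^ (-(2 * σ)) ≤
      2 * P ^ 2 * (T ^ (2 * κ) * ((T ^ (1 - 4 * σ / 3) + T ^ (3 / 2 - 2 * σ)) * Real.sqrt H)) := by
    have s1 : Real.sqrt (Ym * (2 * H)) ≤ 2 * P * (Real.sqrt W * Real.sqrt H) := by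
      calc Real.sqrt (Ym * (2 * H)) ≤ Real.sqrt ((2 * P) ^ 2 * (W * H)) := by
            apply Real.sqrt_le_sqrt
            calc Ym * (2 * H) ≤ (P * W) * (2 * H) := by gcongr
              _ = 2 * P * (W * H) := by ring
              _ ≤ (2 * P) ^ 2 * (W * H) := by
                have : 2 * P ≤ (2 * P) ^ 2 := blk_le_sq (by linarith)
                gcongr
        _ = _ := by
            rw [Real.sqrt_mul (by positivity), Real.sqrt_sq (by positivity),
              Real.sqrt_mul hW0.le]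
    calc Ym * Real.sqrt (Ym * (2 * H)) * W ^ (-(2 * σ)) ≤
          (P * W) * (2 * P * (Real.sqrt W * Real.sqrt H)) * W ^ (-(2 * σ)) := by gcongr
      _ = 2 * P ^ 2 * (W ^ (3 / 2 - 2 * σ) * Real.sqrt H) := by rw [← hWc, ← hWb]; ring
      _ ≤ 2 * P ^ 2 * (T ^ (2 * κ) * (T ^ (1 - 4 * σ / 3) + T ^ (3 / 2 - 2 * σ)) *
            Real.sqrt H) := by gcongr
      _ = _ := by ring
  set R : ℝ := T ^ (2 - 2 * σ) + c * QQ T H σ with hR
  have hR0 : 0 ≤ R := by rw [hR]; positivity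
  have hmain : Ym * (Ym + c * (2 * H + Real.sqrt (Ym * (2 * H)))) * W ^ (-(2 * σ)) ≤
      2 * P ^ 2 * (T ^ (2 * κ) * R) := by
    have h1 : Ym * (Ym + c * (2 * H + Real.sqrt (Ym * (2 * H)))) * W ^ (-(2 * σ)) =
        Ym * Ym * W ^ (-(2 * σ)) + c * (Ym * (2 * H) * W ^ (-(2 * σ)) +
          Ym * Real.sqrt (Ym * (2 * H)) * W ^ (-(2 * σ))) := by ring
    rw [h1]
    have h2 : c * (Ym * (2 * H) * W ^ (-(2 * σ)) +
          Ym * Real.sqrt (Ym * (2 * H)) * W ^ (-(2 * σ))) ≤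
        c * (2 * P ^ 2 * (T ^ (2 * κ) * (T ^ (2 / 3 * (1 - 2 * σ)) * H)) +
          2 * P ^ 2 * (T ^ (2 * κ) * ((T ^ (1 - 4 * σ / 3) + T ^ (3 / 2 - 2 * σ)) *
            Real.sqrt H))) := mul_le_mul_of_nonneg_left (add_le_add t2 t3) hc0
    have h3 : P ^ 2 * (T ^ (2 * κ) * T ^ (2 - 2 * σ)) ≤
        2 * P ^ 2 * (T ^ (2 * κ) * T ^ (2 - 2 * σ)) := by
      have : 0 ≤ P ^ 2 * (T ^ (2 * κ) * T ^ (2 - 2 * σ)) := by positivity
      linarith
    refine (add_le_add (t1.trans h3) h2).trans (le_of_eq ?_)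
    rw [hR]
    unfold QQ
    ring
  -- conclusion
  have hcard : (S.card : ℝ) ≤ T ^ κ * ((S.card : ℝ) * V ^ (2 * m)) := by
    have h1 : (0 : ℝ) ≤ S.card := by positivity
    calc (S.card : ℝ) = S.card * 1 := (mul_one _).symm
      _ ≤ S.card * (T ^ κ * V ^ (2 * m)) := by gcongr
      _ = _ := by ring
  have hfin : 84 * C1 * (1 + Real.log Ym) ^ 3 * Ym *
      (Ym + c * (2 * H + Real.sqrt (Ym * (2 * H)))) * (W ^ (-(2 * σ)) * B ^ 2) ≤
      84 * C1 * T ^ κ * (2 * P ^ 2 * (T ^ (2 * κ) * R)) * (E * T ^ (4 * κ)) := by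
    calc 84 * C1 * (1 + Real.log Ym) ^ 3 * Ym *
      (Ym + c * (2 * H + Real.sqrt (Ym * (2 * H)))) * (W ^ (-(2 * σ)) * B ^ 2)
        = 84 * C1 * (1 + Real.log Ym) ^ 3 * (Ym *
      (Ym + c * (2 * H + Real.sqrt (Ym * (2 * H)))) * W ^ (-(2 * σ))) * B ^ 2 := by ring
      _ ≤ _ := by gcongr
  calc (S.card : ℝ) ≤ T ^ κ * ((S.card : ℝ) * V ^ (2 * m)) := hcard
    _ ≤ T ^ κ * (84 * C1 * T ^ κ * (2 * P ^ 2 * (T ^ (2 * κ) * R)) * (E * T ^ (4 * κ))) :=
        mul_le_mul_of_nonneg_left (hlv.trans hfin) (by positivity)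
    _ = 84 * C1 * (2 * P ^ 2) * E * (T ^ κ * T ^ κ * T ^ (2 * κ) * T ^ (4 * κ)) * R := by ring
    _ = 84 * C1 * (2 * P ^ 2) * E * T ^ (8 * κ) * R := by
        rw [← Real.rpow_add hTpos, ← Real.rpow_add hTpos, ← Real.rpow_add hTpos]
        congr 3
        ring
    _ ≤ 84 * C1 * (2 * P ^ 2) * E * T ^ (12 * κ) * R := by
        have : T ^ (8 * κ) ≤ T ^ (12 * κ) := Real.rpow_le_rpow_of_exponent_le e7 (by linarith)
        gcongr

end Pool.Agent.Helper32K9.RD
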