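import Pool.Agent.Helper61K9.RD.Blk

/-!
# The number of the points of the first class
-/

set_option autoImplicit false

namespace Pool.Agent.Helper32K9.RD

open Complex Metric MeasureTheory Set Filter Topology DH31
open Pool.Agent.W170.MV (C1 cells)

lemma cells_mono {H : ℝ} {S S' : Finset ℝ} (h : S' ⊆ S) : cells H S' ≤ cells H S := by
  unfold Pool.Agent.W170.MV.cells
  exact Finset.card_le_card (Finset.image_subset_image h)

lemma ZN_lt {κ D δ T : ℝ} (hκ : κ ≤ 1 / 2) (hD : 4 ≤ D) (hδ : δ ≤ 1 / 2)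
    (hT : 1 ≤ T) : ZN κ T < 2 ^ (KN D δ T) := by
  have hTpos : 0 < T := by linarith
  have hlog : 0 ≤ Real.log T := Real.log_nonneg hT
  have h1 : (ZN κ T : ℝ) ≤ T := by
    unfold ZN
    calc ((⌊T ^ (1 / 2 + κ)⌋₊ : ℕ) : ℝ) ≤ T ^ (1 / 2 + κ) := Nat.floor_le (by positivity)
      _ ≤ T ^ (1 : ℝ) := Real.rpow_le_rpow_of_exponent_le hT (by linarith)
      _ = T := Real.rpow_one T
  have h2 : 2 * Real.log T + 2 ≤ (KN D δ T : ℝ) := by
    unfold KN
    push_cast
    have h3 := Nat.le_ceil ((1 / 2 + D - δ) / 2 * Real.log T)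
    nlinarith
  have h4 : T < (2 : ℝ) ^ (KN D δ T) := by
    have h5 : (2 : ℝ) ^ (KN D δ T) = Real.exp (KN D δ T * Real.log 2) := by
      rw [Real.exp_nat_mul, Real.exp_log (by norm_num)]
    rw [h5]
    calc T = Real.exp (Real.log T) := (Real.exp_log hTpos).symm
      _ < Real.exp (KN D δ T * Real.log 2) := by
        apply Real.exp_lt_exp.2
        have := Real.log_two_gt_d9
        nlinarith
  have h6 : (ZN κ T : ℝ) < ((2 ^ (KN D δ T) : ℕ) : ℝ) := by
    push_cast
    linarith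
  exact_mod_cast h6

theorem cli (hBLK : S_BLK) : S_CLI := by
  intro κ D δ η hκ hκ1 hD hδ hδ1 hη hη1
  have hD4 : 4 ≤ D := by
    refine le_trans ?_ hD
    rw [le_div_iff₀ (by positivity)]
    nlinarith
  obtain ⟨C, T1, hC, hT1, hblk⟩ := hBLK κ D δ η hκ hκ1 hD hδ hδ1 hη hη1
  have ev1 := ev_log ((D + 4) ^ 2) κ 2 hκ
  have ev2 : ∀ᶠ T : ℝ in atTop, 1 ≤ Real.log T := Real.tendsto_log_atTop.eventually_ge_atTop _
  obtain ⟨T3, hT3⟩ := Filter.eventually_atTop.1 (ev1.and ev2)
  refine ⟨C, max T1 T3, hC, hT1.trans (le_max_left _ _), ?_⟩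
  intro T hT σ hσ1 hσ2 H hH S hS hsep hlarge
  have hTT1 : T1 ≤ T := (le_max_left _ _).trans hT
  obtain ⟨e1, e2⟩ := hT3 T ((le_max_right _ _).trans hT)
  have hT1' : 1 ≤ T := hT1.trans hTT1
  have hTpos : 0 < T := by linarith
  have hH0 : 0 < H := lt_of_lt_of_le (Real.sqrt_pos.2 hTpos) hH
  have hQ0 : 0 ≤ QQ T H σ := by unfold QQ; positivity
  have hZJ := ZN_lt (κ := κ) (D := D) (δ := δ) (T := T) (by linarith) hD4 (by linarith) hT1'
  have hK1 : 1 ≤ KN D δ T := by have := two_le_KN (D := D) (δ := δ) (T := T); omega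
  have hKle : (KN D δ T : ℝ) ≤ (D + 4) * Real.log T :=
    KN_le (by linarith) hδ.le (by linarith) e2
  set K := KN D δ T with hK
  set X := XN η T with hX
  set Z := ZN κ T with hZ
  have hK1r : (1 : ℝ) ≤ K := by exact_mod_cast hK1
  classical
  -- the pieces
  let Skj : ℕ → ℕ → Finset ℝ := fun k j => S.filter fun t =>
    1 / (4 * (K : ℝ) ^ 2) ≤ ‖dp (fun n => bk D σ k X Z j n) (2 ^ (j + 1)) t‖
  have hcover : S ⊆ (Finset.range K).biUnion fun k => (Finset.range K).biUnion fun j =>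
      Skj k j := by
    intro t ht
    obtain ⟨k, hk, hdk⟩ := hlarge t ht
    rw [dyadic hZJ] at hdk
    have hex : ∃ j < K, 1 / (4 * (K : ℝ) ^ 2) ≤
        ‖dp (fun n => bk D σ k X Z j n) (2 ^ (j + 1)) t‖ := by
      by_contra hcon
      push Not at hcon
      have h8 : ‖∑ j ∈ Finset.range K,
        dp (fun n => bk D σ k X Z j n) (2 ^ (j + 1)) t‖ < 1 / (4 * (K : ℝ)) := by
        calc _ ≤ ∑ j ∈ Finset.range K,
              ‖dp (fun n => bk D σ k X Z j n) (2 ^ (j + 1)) t‖ := norm_sum_le _ _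
          _ < ∑ j ∈ Finset.range K, 1 / (4 * (K : ℝ) ^ 2) := by
            refine Finset.sum_lt_sum_of_nonempty ⟨0, Finset.mem_range.2 (by omega)⟩ fun j hj => ?_
            exact hcon j (Finset.mem_range.1 hj)
          _ = 1 / (4 * (K : ℝ)) := by
            rw [Finset.sum_const, Finset.card_range, nsmul_eq_mul]
            have : (K : ℝ) ≠ 0 := by positivity
            field_simp
      linarith
    obtain ⟨j, hj, hdj⟩ := hex
    simp only [Finset.mem_biUnion, Finset.mem_range]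
    exact ⟨k, hk, j, hj, Finset.mem_filter.2 ⟨ht, hdj⟩⟩
  set R : ℝ := T ^ (2 - 2 * σ) + cells (2 * H) S * QQ T H σ with hR
  have hR0 : 0 ≤ R := by rw [hR]; positivity
  have hbd : ∀ k j, ((Skj k j).card : ℝ) ≤ C * T ^ (12 * κ) * R := by
    intro k j
    have hsub : Skj k j ⊆ S := Finset.filter_subset _ _
    have h1 := hblk T hTT1 σ hσ1 hσ2 H hH k j (Skj k j) (fun t ht => hS t (hsub ht))
      (fun t ht u hu => hsep t (hsub ht) u (hsub hu))
      (fun t ht => (Finset.mem_filter.1 ht).2)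
    refine h1.trans ?_
    have h2 : (cells (2 * H) (Skj k j) : ℝ) ≤ cells (2 * H) S := by
      exact_mod_cast cells_mono hsub
    rw [hR]
    gcongr
  have hcard : (S.card : ℝ) ≤ (K : ℝ) * ((K : ℝ) * (C * T ^ (12 * κ) * R)) := by
    calc (S.card : ℝ) ≤ (((Finset.range K).biUnion fun k => (Finset.range K).biUnion fun j =>
          Skj k j).card : ℝ) := by exact_mod_cast Finset.card_le_card hcover
      _ ≤ ∑ k ∈ Finset.range K, ∑ j ∈ Finset.range K, ((Skj k j).card : ℝ) := by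
          have h1 : (((Finset.range K).biUnion fun k => (Finset.range K).biUnion fun j =>
            Skj k j).card) ≤ ∑ k ∈ Finset.range K, ∑ j ∈ Finset.range K, (Skj k j).card :=
            (Finset.card_biUnion_le).trans (Finset.sum_le_sum fun k _ => Finset.card_biUnion_le)
          exact_mod_cast h1
      _ ≤ ∑ k ∈ Finset.range K, ∑ j ∈ Finset.range K, C * T ^ (12 * κ) * R :=
          Finset.sum_le_sum fun k _ => Finset.sum_le_sum fun j _ => hbd k j
      _ = _ := by
          rw [Finset.sum_const, Finset.sum_const, Finset.card_range,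
            nsmul_eq_mul, nsmul_eq_mul]
  have hK2 : (K : ℝ) ^ 2 ≤ T ^ κ := by
    refine le_trans ?_ e1
    calc (K : ℝ) ^ 2 ≤ ((D + 4) * Real.log T) ^ 2 := by gcongr
      _ = _ := by ring
  calc (S.card : ℝ) ≤ (K : ℝ) * ((K : ℝ) * (C * T ^ (12 * κ) * R)) := hcard
    _ = (K : ℝ) ^ 2 * (C * T ^ (12 * κ) * R) := by ring
    _ ≤ T ^ κ * (C * T ^ (12 * κ) * R) := by gcongr
    _ = C * (T ^ κ * T ^ (12 * κ)) * R := by ring
    _ = C * T ^ (13 * κ) * R := by
        rw [← Real.rpow_add hTpos]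
        congr 3
        ring

end Pool.Agent.Helper32K9.RD
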