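import Pool.Agent.Helper32K9.RD.St

/-!
# Large values of a power of a Dirichlet polynomial on a clustered set
-/

set_option autoImplicit false

namespace Pool.Agent.Helper32K9.RD

open Complex Metric MeasureTheory Set Filter Topology DH31
open Pool.Agent.W170.MV (C1 cells)

theorem lv : S_LV := by
  intro b N Y m σ V B H hN hσ hV hs hb hB hB0 hY hH S hS hsep hlarge
  have hYm : 1 ≤ Y ^ m := Nat.one_le_pow _ _ hY
  have hNm : (0 : ℝ) < ((N ^ m : ℕ) : ℝ) := by positivity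
  set W : ℝ := ((N ^ m : ℕ) : ℝ) with hW
  set G : ℝ := B * W ^ (-σ) with hG
  have hG0 : 0 < G := by rw [hG]; positivity
  have ha : ∀ n, ‖(b ^ m) n / (G : ℂ)‖ ≤ 1 := by
    intro n
    rw [norm_div, Complex.norm_real, Real.norm_of_nonneg hG0.le, div_le_one hG0]
    by_cases h0 : (b ^ m) n = 0
    · rw [h0, norm_zero]; exact hG0.le
    · have hn1 : 1 ≤ n := by
        rcases Nat.eq_zero_or_pos n with rfl | h
        · exact absurd (ArithmeticFunction.map_zero) h0
        · exact h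
      have h5 := pow_support hs m n h0
      have h4 := pow_bound hb m n hn1
      have h6 := hB n (Finset.mem_Icc.2 ⟨hn1, h5.2⟩)
      have h7 : (n : ℝ) ^ (-σ) ≤ W ^ (-σ) :=
        Real.rpow_le_rpow_of_nonpos hNm (by rw [hW]; exact_mod_cast h5.1) (by linarith)
      refine h4.trans ?_
      rw [hG]
      gcongr
  have h1 := Pool.Agent.W170.MV.clustered_neg hH (Y ^ m) hYm (fun n => (b ^ m) n / (G : ℂ)) ha S hS
    hsep
  have h2 : ∀ t : ℝ, ‖dp (fun n => (b ^ m) n) (Y ^ m) t‖ ^ 2 =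
      G ^ 2 * ‖∑ n ∈ Finset.Icc 1 (Y ^ m), (b ^ m) n / (G : ℂ) *
        Complex.exp (-(Complex.I * (t * Real.log n : ℝ)))‖ ^ 2 := by
    intro t
    have h3 : dp (fun n => (b ^ m) n) (Y ^ m) t = (G : ℂ) *
        ∑ n ∈ Finset.Icc 1 (Y ^ m), (b ^ m) n / (G : ℂ) *
        Complex.exp (-(Complex.I * (t * Real.log n : ℝ))) := by
      unfold dp
      rw [Finset.mul_sum]
      refine Finset.sum_congr rfl fun n hn => ?_
      rw [Finset.mem_Icc] at hn
      have hn0 : (n : ℂ) ≠ 0 := by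
        have : n ≠ 0 := by omega
        exact_mod_cast this
      have hGc : (G : ℂ) ≠ 0 := by exact_mod_cast hG0.ne'
      have h4 : (n : ℂ) ^ (-(t : ℂ) * I) = Complex.exp (-(Complex.I * (t * Real.log n : ℝ))) := by
        rw [Complex.cpow_def_of_ne_zero hn0]
        congr 1
        push_cast
        ring
      rw [h4]
      field_simp
    rw [h3, norm_mul, Complex.norm_real, Real.norm_of_nonneg hG0.le, mul_pow]
  have h3 : (S.card : ℝ) * V ^ (2 * m) ≤ ∑ t ∈ S, ‖dp (fun n => (b ^ m) n) (Y ^ m) t‖ ^ 2 := by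
    rw [← nsmul_eq_mul]
    refine Finset.card_nsmul_le_sum _ _ _ fun t ht => ?_
    rw [dp_pow hs, norm_pow, ← pow_mul, mul_comm m 2]
    have := hlarge t ht
    gcongr
  refine h3.trans ?_
  have h4 : ∑ t ∈ S, ‖dp (fun n => (b ^ m) n) (Y ^ m) t‖ ^ 2 = G ^ 2 *
      ∑ t ∈ S, ‖∑ n ∈ Finset.Icc 1 (Y ^ m), (b ^ m) n / (G : ℂ) *
        Complex.exp (-(Complex.I * (t * Real.log n : ℝ)))‖ ^ 2 := by
    rw [Finset.mul_sum]
    exact Finset.sum_congr rfl fun t _ => h2 t
  rw [h4]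
  have h5 : G ^ 2 = W ^ (-(2 * σ)) * B ^ 2 := by
    rw [hG, mul_pow, ← Real.rpow_natCast (W ^ (-σ)), ← Real.rpow_mul hNm.le, mul_comm]
    congr 2
    push_cast; ring
  rw [h5, mul_comm]
  exact mul_le_mul_of_nonneg_right h1 (by positivity)

end Pool.Agent.Helper32K9.RD
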